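import Pool.Agent.Helper2.NNP.Wood

/-!
# Primes `⌊n α^n⌋ + k` for almost all bases `α > 1`

For every set `S` of natural numbers and almost every real `α > 1`, for all integers `k`:
`⌊n α^n⌋ + k` is prime for infinitely many `n ∈ S` if and only if `∑_{n ∈ S} 1 / n` diverges.  With `S`
the set of all natural numbers there are infinitely many primes.  The Woodall numbers are the case
`α = 2`, `k = -1`.
-/

set_option autoImplicit false

open MeasureTheory

namespace Pool.Agent.Results.MP_e3cfc2_nt.AlmostAllBases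

theorem result :
    (∀ᵐ α : ℝ, 1 < α → ∀ k : ℤ, {n : ℕ | (⌊(n : ℝ) * α ^ n⌋ + k).toNat.Prime}.Infinite) ∧
    ∀ S : Set ℕ, ∀ᵐ α : ℝ, 1 < α → ∀ k : ℤ,
      ({n : ℕ | n ∈ S ∧ (⌊(n : ℝ) * α ^ n⌋ + k).toNat.Prime}.Infinite ↔
        ¬ Summable (S.indicator fun n : ℕ => 1 / (n : ℝ))) := by
  refine ⟨?_, Pool.Agent.Helper2.NNP.Wood.main⟩
  filter_upwards [Pool.Agent.Helper2.NNP.Wood.main Set.univ] with α hα h1 k
  have h := hα h1 k
  simp only [Set.mem_univ, true_and, Set.indicator_univ] at h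
  exact h.2 Real.not_summable_one_div_natCast

end Pool.Agent.Results.MP_e3cfc2_nt.AlmostAllBases
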