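import Pool.Agent.Helper99.WD.B

/-!
# Primes `⌊n α ^ n⌋ - 1` for all large `n` of a sparse sequence (MP_e3cfc2_nt)

The Woodall numbers are the numbers `⌊n α ^ n⌋ - 1` for `α = 2`. Let `n 0 < n 1 < …` be a sparse sequence of natural
numbers. In every interval, for instance in every neighbourhood of `2`, the set of the bases `α` for which the number
`⌊n α ^ n⌋ - 1` is prime for ALL large terms `n` of the sequence has Hausdorff dimension one. The factor `n` may be
replaced by arbitrary real weights between `1` and `L ^ n` and `-1` by any integer.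

The proof: nested intervals with many children (a Cantor scheme). An interval of bases on which `⌊W α ^ m⌋ = P` is mapped
by `α ↦ W' α ^ m'` onto an interval which is longer than the power `1 - θ` of its left end point, if `m' ≥ C m`; it
contains many primes by the theorem on primes in short intervals of the starting files (`Pool.Agent.H295R3.D.hoheisel`).
-/

set_option autoImplicit false

open Filter Set Topology

namespace Pool.Agent.Results.MP_e3cfc2_nt.SparseIndices

/-- The bases `α` for which `⌊W α ^ n⌋ + k` is prime for all but finitely many terms `n = n j`, `W = W j` of the two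
sequences. -/
def Bases (n : ℕ → ℕ) (W : ℕ → ℝ) (k : ℤ) : Set ℝ :=
  {α : ℝ | ∀ᶠ j in atTop, (⌊W j * α ^ n j⌋ + k).toNat.Prime}

/-- Let `n 0 < n 1 < …` be natural numbers such that `n (j + 1) / n j` tends to infinity and `log (n (j + 1)) / n j` tends
to zero. Let `W j` be real numbers with `1 ≤ W j ≤ L ^ n j` for all large `j`, and `k` an integer. In every interval
`(u, v)`, `1 ≤ u < v`, the set of the `α` for which `⌊W j α ^ n j⌋ + k` is prime for all large `j` has Hausdorff
dimension one. In particular this is true for the numbers `⌊n α ^ n⌋ - 1`, `n = n j`. -/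
theorem result (n : ℕ → ℕ) (hn : StrictMono n)
    (hrat : Tendsto (fun j => (n (j + 1) : ℝ) / n j) atTop atTop)
    (hlog : Tendsto (fun j => Real.log (n (j + 1)) / n j) atTop (𝓝 0)) (u v : ℝ) (hu : 1 ≤ u)
    (huv : u < v) :
    (∀ W : ℕ → ℝ, (∃ L : ℕ, ∀ᶠ j in atTop, 1 ≤ W j ∧ W j ≤ (L : ℝ) ^ n j) →
      ∀ k : ℤ, dimH (Ioo u v ∩ Bases n W k) = 1) ∧
    dimH (Ioo u v ∩ Bases n (fun j => n j) (-1)) = 1 := by
  have gen : ∀ W : ℕ → ℝ, (∃ L : ℕ, ∀ᶠ j in atTop, 1 ≤ W j ∧ W j ≤ (L : ℝ) ^ n j) →
      ∀ k : ℤ, dimH (Ioo u v ∩ Bases n W k) = 1 := by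
    rintro W ⟨L, hL⟩ k
    have hL0 : (0 : ℝ) ≤ L := Nat.cast_nonneg L
    refine Pool.Agent.Helper99.WD.dim_eq n hn hrat hlog W (L := (L : ℝ) + 1) (by linarith) ?_ k hu
      huv
    filter_upwards [hL] with j hj
    exact ⟨hj.1, hj.2.trans (pow_le_pow_left₀ hL0 (by linarith) _)⟩
  refine ⟨gen, gen _ ⟨2, ?_⟩ (-1)⟩
  filter_upwards [hn.tendsto_atTop.eventually_ge_atTop 1] with j hj
  refine ⟨by exact_mod_cast hj, ?_⟩
  exact_mod_cast (Nat.lt_two_pow_self (n := n j)).le

end Pool.Agent.Results.MP_e3cfc2_nt.SparseIndices
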